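import Pool.Agent.Helper63.HM.Cone

/-!
# The cone frame with planes through the apex
-/

set_option autoImplicit false
set_option linter.unusedSectionVars false

namespace Pool.Agent.Helper83.RC

open Pool.Agent.Helper28.BPack Pool.Agent.Helper61.Motz Pool.Agent.Helper63.HM

variable {L : Type} [Lattice L] [BoundedOrder L] [Finite L] [IsUpperModularLattice L]

/-- **The cone frame.**  `Q` is a plane over `u`, `o` a point off `Q`.  Users are the points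
off `Q` other than `o` which are not representatives; they use planes which do not contain `u`,
and which do not contain both `o` and a point of `Q` off `u`.
A representative `x` (at most one in every plane over `u`, none in `u ⊔ o`) uses the plane
`x ⊔ u` and two of its lines which meet `u`. -/
theorem crit4_of_coneW {A : Finset L} {Q o u : L} {Rp : L → Prop} {cc gg H e1 e2 : L → L}
    (hA : ∀ a ∈ A, IsAtom a) (hQ : rk Q = 3) (ho : o ∈ A) (hoQ : ¬ o ≤ Q)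
    (hu : rk u = 2) (huQ : u ≤ Q)
    (h3 : ∀ B : Finset L, (∀ a, a ∈ B ↔ a ∈ A ∧ a ≤ Q) → Crit3 B)
    (hRo : ∀ x ∈ A, ¬ x ≤ Q → x ≠ o → Rp x → ¬ o ≤ x ⊔ u)
    (hR1 : ∀ x ∈ A, ¬ x ≤ Q → x ≠ o → Rp x → e1 x ∈ A ∧ e1 x ≤ u ∧ e2 x ∈ A ∧ e2 x ≤ u ∧
      e1 x ≠ e2 x)
    (hR2 : ∀ x ∈ A, ¬ x ≤ Q → x ≠ o → Rp x → ∀ y ∈ A, ¬ y ≤ Q → y ≠ o → Rp y →
      x ⊔ u = y ⊔ u → x = y)
    (hR3 : ∀ x ∈ A, ¬ x ≤ Q → x ≠ o → Rp x → ∀ y ∈ A, ¬ y ≤ Q → y ≠ o → ¬ Rp y →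
      y ⊔ cc y ≠ x ⊔ e1 x ∧ y ⊔ cc y ≠ x ⊔ e2 x)
    (hc : ∀ x ∈ A, ¬ x ≤ Q → x ≠ o → ¬ Rp x → cc x ∈ A ∧ cc x ≤ u)
    (hcinj : ∀ x ∈ A, ¬ x ≤ Q → x ≠ o → ¬ Rp x → ∀ y ∈ A, ¬ y ≤ Q → y ≠ o → ¬ Rp y →
      x ⊔ cc x = y ⊔ cc y → x = y)
    (hH : ∀ x ∈ A, ¬ x ≤ Q → x ≠ o → ¬ Rp x → rk (H x) = 3 ∧ x ⊔ cc x ≤ H x ∧ ¬ u ≤ H x ∧
      ¬ o ≤ x ⊔ cc x ∧ (o ≤ H x → ∀ q ∈ A, q ≤ Q → q ≤ H x → q ≤ u))
    (hHinj : ∀ x ∈ A, ¬ x ≤ Q → x ≠ o → ¬ Rp x → ∀ y ∈ A, ¬ y ≤ Q → y ≠ o → ¬ Rp y →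
      cc x = cc y → H x = H y → x = y)
    (hg : ∀ x ∈ A, ¬ x ≤ Q → x ≠ o → ¬ Rp x → gg x ∈ A ∧ gg x ≤ H x ∧ ¬ gg x ≤ x ⊔ cc x)
    (hginj : ∀ x ∈ A, ¬ x ≤ Q → x ≠ o → ¬ Rp x → ∀ y ∈ A, ¬ y ≤ Q → y ≠ o → ¬ Rp y →
      x ⊔ gg x = y ⊔ gg y → x = y) : Crit4 A := by
  classical
  have hmQ : ∀ x, x ∈ A.filter (· ≤ Q) ↔ x ∈ A ∧ x ≤ Q := fun x => Finset.mem_filter
  have hB4 := crit4_base hA hQ ho hoQ (h3 _ hmQ)
  have hnB : ∀ x, x ∈ A → x ∉ insert o (A.filter (· ≤ Q)) → ¬ x ≤ Q ∧ x ≠ o := by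
    intro x hx h
    rw [Finset.mem_insert, hmQ] at h
    push Not at h
    exact ⟨h.2 hx, h.1⟩
  have hBm : ∀ a, a ∈ insert o (A.filter (· ≤ Q)) → a = o ∨ (a ∈ A ∧ a ≤ Q) := by
    intro a ha
    rcases Finset.mem_insert.mp ha with h | h
    · exact Or.inl h
    · exact Or.inr ((hmQ a).mp h)
  -- basic facts
  have hxu : ∀ x, ¬ x ≤ Q → ¬ x ≤ u := fun x h h' => h (h'.trans huQ)
  have two : ∀ a ∈ A, a ≤ u → ∀ a' ∈ A, a' ≤ u → a ≠ a' → ∀ p, a ≤ p → a' ≤ p → u ≤ p := by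
    intro a ha hau a' ha' hau' hne p h1 h2
    rw [← line_eq (hA a ha) (hA a' ha') hne hau hau' hu]
    exact sup_le h1 h2
  have hrow : ∀ x ∈ A, ¬ x ≤ Q → ∀ a ∈ A, a ≤ u → rk (x ⊔ a) = 2 := by
    intro x hx hxQ a ha hau
    exact rk_line (hA x hx) (hA a ha) (fun h => hxu x hxQ (h ▸ hau))
  have hur : ∀ x ∈ A, ¬ x ≤ Q → rk (x ⊔ u) = 3 := by
    intro x hx hxQ
    rw [sup_comm, rk_sup_atom (hA x hx) (hxu x hxQ), hu]
  -- the lines `x ⊔ gg x`
  have hgl : ∀ x ∈ A, ¬ x ≤ Q → x ≠ o → ¬ Rp x → rk (x ⊔ gg x) = 2 ∧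
      ¬ cc x ≤ x ⊔ gg x ∧ x ⊔ gg x ≤ H x ∧ rk (x ⊔ cc x ⊔ gg x) = 3 ∧
      x ⊔ cc x ⊔ gg x = H x := by
    intro x hx h1 h2 h4
    obtain ⟨k1, k2, k3⟩ := hg x hx h1 h2 h4
    obtain ⟨l1, l2⟩ := hc x hx h1 h2 h4
    obtain ⟨m1, m2, m3, -⟩ := hH x hx h1 h2 h4
    have n1 : x ≠ gg x := fun h => k3 (h ▸ le_sup_left)
    have n2 := rk_line (hA x hx) (hA _ k1) n1
    have n3 : rk (x ⊔ cc x ⊔ gg x) = 3 := by
      rw [rk_sup_atom (hA _ k1) k3, hrow x hx h1 _ l1 l2]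
    refine ⟨n2, ?_, sup_le (le_sup_left.trans m2) k2, n3, ?_⟩
    · intro h
      have h5 : x ⊔ cc x = x ⊔ gg x := eq_of_le_of_rk (sup_le le_sup_left h)
        (by rw [n2, hrow x hx h1 _ l1 l2])
      exact k3 (h5 ▸ le_sup_right)
    · exact eq_of_le_of_rk (sup_le m2 k2) (by rw [n3, m1])
  -- no line `x ⊔ gg x` meets `u`
  have hgu : ∀ x ∈ A, ¬ x ≤ Q → x ≠ o → ¬ Rp x → ∀ a ∈ A, a ≤ u → ¬ a ≤ x ⊔ gg x := by
    intro x hx h1 h2 h4 a ha hau h
    obtain ⟨l1, l2⟩ := hc x hx h1 h2 h4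
    obtain ⟨n1, n2, n3, -⟩ := hgl x hx h1 h2 h4
    obtain ⟨m1, m2, m3, -⟩ := hH x hx h1 h2 h4
    by_cases h5 : a = cc x
    · exact n2 (h5 ▸ h)
    · exact m3 (two a ha hau _ l1 l2 h5 _ (h.trans n3) (le_sup_right.trans m2))
  -- representatives: the two lines and the plane
  have hrep : ∀ x ∈ A, ¬ x ≤ Q → x ≠ o → Rp x → rk (x ⊔ e1 x ⊔ e2 x) = 3 ∧
      x ⊔ e1 x ⊔ e2 x = x ⊔ u := by
    intro x hx h1 h2 h4
    obtain ⟨k1, k2, k3, k4, k5⟩ := hR1 x hx h1 h2 h4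
    have h6 : x ⊔ e1 x ⊔ e2 x = x ⊔ u := by
      rw [sup_assoc, line_eq (hA _ k1) (hA _ k3) k5 k2 k4 hu]
    exact ⟨by rw [h6, hur x hx h1], h6⟩
  -- a line through `x` off `Q` which does not pass through `o`
  have hline : ∀ x ∈ A, ¬ x ≤ Q → ∀ l, rk l = 2 → x ≤ l → ¬ o ≤ l →
      ∀ a ∈ insert o (A.filter (· ≤ Q)), ∀ e ∈ insert o (A.filter (· ≤ Q)), a ≠ e →
      a ≤ l → e ≤ l → False := by
    intro x hx hxQ l hl hxl hol a ha e he hae hal hel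
    rcases hBm a ha with rfl | ⟨ha1, ha2⟩
    · exact hol hal
    · rcases hBm e he with rfl | ⟨he1, he2⟩
      · exact hol hel
      · have h5 := line_eq (hA a ha1) (hA e he1) hae hal hel hl
        exact hxQ (hxl.trans (h5 ▸ sup_le ha2 he2))
  have hplane : ∀ x ∈ A, ¬ x ≤ Q → ∀ p, rk p = 3 → x ≤ p → ¬ o ≤ p →
      ∀ a ∈ insert o (A.filter (· ≤ Q)), ∀ e ∈ insert o (A.filter (· ≤ Q)),
      ∀ t ∈ insert o (A.filter (· ≤ Q)), rk (a ⊔ e ⊔ t) = 3 →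
      a ≤ p → e ≤ p → t ≤ p → False := by
    intro x hx hxQ p hp hxp hop a ha e he t ht hr hap hep htp
    rcases hBm a ha with rfl | ⟨ha1, ha2⟩
    · exact hop hap
    rcases hBm e he with rfl | ⟨he1, he2⟩
    · exact hop hep
    rcases hBm t ht with rfl | ⟨ht1, ht2⟩
    · exact hop htp
    have h5 : a ⊔ e ⊔ t = p := eq_of_le_of_rk (sup_le (sup_le hap hep) htp) (by rw [hr, hp])
    exact hxQ (hxp.trans (h5 ▸ sup_le (sup_le ha2 he2) ht2))
  -- the lines `x ⊔ gg x`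
  have hlineG : ∀ x ∈ A, ¬ x ≤ Q → x ≠ o → ¬ Rp x →
      ∀ a ∈ insert o (A.filter (· ≤ Q)), ∀ e ∈ insert o (A.filter (· ≤ Q)), a ≠ e →
      a ≤ x ⊔ gg x → e ≤ x ⊔ gg x → False := by
    intro x hx hxQ h2 h4 a ha e he hae hal hel
    obtain ⟨n1, -, n3, -⟩ := hgl x hx hxQ h2 h4
    obtain ⟨-, -, -, -, m5⟩ := hH x hx hxQ h2 h4
    rcases hBm a ha with rfl | ⟨ha1, ha2⟩
    · rcases hBm e he with rfl | ⟨he1, he2⟩
      · exact hae rfl
      · exact hgu x hx hxQ h2 h4 e he1 (m5 (hal.trans n3) e he1 he2 (hel.trans n3)) hel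
    · rcases hBm e he with rfl | ⟨he1, he2⟩
      · exact hgu x hx hxQ h2 h4 a ha1 (m5 (hel.trans n3) a ha1 ha2 (hal.trans n3)) hal
      · have h5 := line_eq (hA a ha1) (hA e he1) hae hal hel n1
        exact hxQ ((le_sup_left : x ≤ x ⊔ gg x).trans (h5 ▸ sup_le ha2 he2))
  -- the planes `H x`
  have hplaneG : ∀ x ∈ A, ¬ x ≤ Q → x ≠ o → ¬ Rp x →
      ∀ a ∈ insert o (A.filter (· ≤ Q)), ∀ e ∈ insert o (A.filter (· ≤ Q)),
      ∀ t ∈ insert o (A.filter (· ≤ Q)), rk (a ⊔ e ⊔ t) = 3 →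
      a ≤ H x → e ≤ H x → t ≤ H x → False := by
    intro x hx hxQ h2 h4 a ha e he t ht hr hap hep htp
    obtain ⟨m1, m2, m3, -, m5⟩ := hH x hx hxQ h2 h4
    have hBa : ∀ a, a ∈ insert o (A.filter (· ≤ Q)) → IsAtom a := by
      intro a ha
      rcases hBm a ha with rfl | h
      · exact hA _ ho
      · exact hA _ h.1
    obtain ⟨n1, n2, n3⟩ : a ≠ e ∧ a ≠ t ∧ e ≠ t := by
      have k : ∀ p q : L, IsAtom p → IsAtom q → rk (p ⊔ q) ≤ 2 := by
        intro p q hp hq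
        have := rk_sup_atom_le (x := p) hq
        rw [rk_atom hp] at this
        exact this
      refine ⟨?_, ?_, ?_⟩
      · rintro rfl
        rw [sup_idem] at hr
        have := k a t (hBa a ha) (hBa t ht)
        omega
      · rintro rfl
        rw [sup_right_comm, sup_idem] at hr
        have := k a e (hBa a ha) (hBa e he)
        omega
      · rintro rfl
        rw [sup_assoc, sup_idem] at hr
        have := k a e (hBa a ha) (hBa e he)
        omega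
    -- two points of `u` below `H x`
    have kk : o ≤ H x → ∀ p q, p ∈ A → p ≤ Q → q ∈ A → q ≤ Q → p ≠ q → p ≤ H x → q ≤ H x →
        False := by
      intro ho' p q hp hpQ hq hqQ hpq hpH hqH
      exact m3 (two p hp (m5 ho' p hp hpQ hpH) q hq (m5 ho' q hq hqQ hqH) hpq _ hpH hqH)
    rcases hBm a ha with rfl | ⟨ha1, ha2⟩
    · rcases hBm e he with rfl | ⟨he1, he2⟩
      · exact n1 rfl
      · rcases hBm t ht with rfl | ⟨ht1, ht2⟩
        · exact n2 rfl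
        · exact kk hap e t he1 he2 ht1 ht2 n3 hep htp
    · rcases hBm e he with rfl | ⟨he1, he2⟩
      · rcases hBm t ht with rfl | ⟨ht1, ht2⟩
        · exact n3 rfl
        · exact kk hep a t ha1 ha2 ht1 ht2 n2 hap htp
      · rcases hBm t ht with rfl | ⟨ht1, ht2⟩
        · exact kk htp a e ha1 ha2 he1 he2 n1 hap hep
        · have h5 : a ⊔ e ⊔ t = H x :=
            eq_of_le_of_rk (sup_le (sup_le hap hep) htp) (by rw [hr, m1])
          exact hxQ (((le_sup_left : x ≤ x ⊔ cc x).trans m2).trans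
            (h5 ▸ sup_le (sup_le ha2 he2) ht2))
  -- rows and `o`
  have hoRow : ∀ x ∈ A, ¬ x ≤ Q → x ≠ o → ¬ Rp x → ¬ o ≤ x ⊔ cc x := fun x hx h1 h2 h4 =>
    (hH x hx h1 h2 h4).2.2.2.1
  have hoE : ∀ x ∈ A, ¬ x ≤ Q → x ≠ o → Rp x → ∀ a, a ≤ u → ¬ o ≤ x ⊔ a :=
    fun x hx h1 h2 h4 a ha h => hRo x hx h1 h2 h4 (h.trans (sup_le_sup_left ha _))
  refine nPeel (B := insert o (A.filter (· ≤ Q)))
    (c' := fun x => if Rp x then e1 x else cc x)
    (d' := fun x => if Rp x then e2 x else gg x) hA ?_ hB4 ?_ ?_ ?_ ?_ ?_ ?_ ?_ ?_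
  · intro a ha
    rcases hBm a ha with rfl | h
    · exact ho
    · exact h.1
  · intro x hx hxB
    obtain ⟨h1, h2⟩ := hnB x hx hxB
    by_cases h4 : Rp x
    · simp only [h4, if_true]
      obtain ⟨k1, k2, k3, k4, k5⟩ := hR1 x hx h1 h2 h4
      exact ⟨k1, k3, (hrep x hx h1 h2 h4).1⟩
    · simp only [h4, if_false]
      exact ⟨(hc x hx h1 h2 h4).1, (hg x hx h1 h2 h4).1, (hgl x hx h1 h2 h4).2.2.2.1⟩
  · intro x hx hxB y hy hyB e
    obtain ⟨h1, h2⟩ := hnB x hx hxB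
    obtain ⟨h1', h2'⟩ := hnB y hy hyB
    by_cases h4 : Rp x
    · by_cases h4' : Rp y
      · simp only [h4, h4', if_true] at e
        apply hR2 x hx h1 h2 h4 y hy h1' h2' h4'
        have k := (hR1 x hx h1 h2 h4).2.1
        have k' := (hR1 y hy h1' h2' h4').2.1
        have e3 : y ≤ x ⊔ u := (le_sup_left : y ≤ y ⊔ e1 y).trans
          (e ▸ sup_le_sup_left k _)
        exact (eq_of_le_of_rk (sup_le e3 le_sup_right)
          (by rw [hur x hx h1, hur y hy h1'])).symm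
      · simp only [h4, h4', if_true, if_false] at e
        exact absurd e.symm (hR3 x hx h1 h2 h4 y hy h1' h2' h4').1
    · by_cases h4' : Rp y
      · simp only [h4, h4', if_true, if_false] at e
        exact absurd e (hR3 y hy h1' h2' h4' x hx h1 h2 h4).1
      · simp only [h4, h4', if_false] at e
        exact hcinj x hx h1 h2 h4 y hy h1' h2' h4' e
  · intro x hx hxB y hy hyB e
    obtain ⟨h1, h2⟩ := hnB x hx hxB
    obtain ⟨h1', h2'⟩ := hnB y hy hyB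
    by_cases h4 : Rp x
    · by_cases h4' : Rp y
      · simp only [h4, h4', if_true] at e
        apply hR2 x hx h1 h2 h4 y hy h1' h2' h4'
        have k := (hR1 x hx h1 h2 h4).2.2.2.1
        have e3 : y ≤ x ⊔ u := (le_sup_left : y ≤ y ⊔ e2 y).trans
          (e ▸ sup_le_sup_left k _)
        exact (eq_of_le_of_rk (sup_le e3 le_sup_right)
          (by rw [hur x hx h1, hur y hy h1'])).symm
      · simp only [h4, h4', if_true, if_false] at e
        obtain ⟨-, -, k3, k4, -⟩ := hR1 x hx h1 h2 h4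
        exact (hgu y hy h1' h2' h4' _ k3 k4 (e ▸ le_sup_right)).elim
    · by_cases h4' : Rp y
      · simp only [h4, h4', if_true, if_false] at e
        obtain ⟨-, -, k3, k4, -⟩ := hR1 y hy h1' h2' h4'
        exact (hgu x hx h1 h2 h4 _ k3 k4 (e ▸ le_sup_right)).elim
      · simp only [h4, h4', if_false] at e
        exact hginj x hx h1 h2 h4 y hy h1' h2' h4' e
  · intro x hx hxB y hy hyB e
    obtain ⟨h1, h2⟩ := hnB x hx hxB
    obtain ⟨h1', h2'⟩ := hnB y hy hyB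
    by_cases h4 : Rp x
    · by_cases h4' : Rp y
      · simp only [h4, h4', if_true] at e
        obtain ⟨k1, k2, k3, k4, k5⟩ := hR1 x hx h1 h2 h4
        obtain ⟨l1, l2, l3, l4, l5⟩ := hR1 y hy h1' h2' h4'
        have e3 : y ≤ x ⊔ u := (le_sup_left : y ≤ y ⊔ e2 y).trans
          (e ▸ sup_le_sup_left k2 _)
        have hxy : x = y := hR2 x hx h1 h2 h4 y hy h1' h2' h4'
          (eq_of_le_of_rk (sup_le e3 le_sup_right)
            (by rw [hur x hx h1, hur y hy h1'])).symm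
        subst hxy
        have h5 : u ≤ x ⊔ e1 x := two _ k1 k2 _ k3 k4 k5 _ le_sup_right (e ▸ le_sup_right)
        have h6 := rk_mono (sup_le (le_sup_left : x ≤ x ⊔ e1 x) h5)
        rw [hur x hx h1, hrow x hx h1 _ k1 k2] at h6
        omega
      · simp only [h4, h4', if_true, if_false] at e
        obtain ⟨k1, k2, -⟩ := hR1 x hx h1 h2 h4
        exact hgu y hy h1' h2' h4' _ k1 k2 (e ▸ le_sup_right)
    · by_cases h4' : Rp y
      · simp only [h4, h4', if_true, if_false] at e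
        exact (hR3 y hy h1' h2' h4' x hx h1 h2 h4).2 e
      · simp only [h4, h4', if_false] at e
        obtain ⟨l1, l2⟩ := hc x hx h1 h2 h4
        exact hgu y hy h1' h2' h4' _ l1 l2 (e ▸ le_sup_right)
  · intro x hx hxB y hy hyB e
    obtain ⟨h1, h2⟩ := hnB x hx hxB
    obtain ⟨h1', h2'⟩ := hnB y hy hyB
    by_cases h4 : Rp x
    · by_cases h4' : Rp y
      · simp only [h4, h4', if_true] at e
        rw [(hrep x hx h1 h2 h4).2, (hrep y hy h1' h2' h4').2] at e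
        exact hR2 x hx h1 h2 h4 y hy h1' h2' h4' e
      · simp only [h4, h4', if_true, if_false] at e
        rw [(hrep x hx h1 h2 h4).2, (hgl y hy h1' h2' h4').2.2.2.2] at e
        exact ((hH y hy h1' h2' h4').2.2.1 (e ▸ le_sup_right)).elim
    · by_cases h4' : Rp y
      · simp only [h4, h4', if_true, if_false] at e
        rw [(hrep y hy h1' h2' h4').2, (hgl x hx h1 h2 h4).2.2.2.2] at e
        exact ((hH x hx h1 h2 h4).2.2.1 (e ▸ le_sup_right)).elim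
      · simp only [h4, h4', if_false] at e
        rw [(hgl x hx h1 h2 h4).2.2.2.2, (hgl y hy h1' h2' h4').2.2.2.2] at e
        apply hHinj x hx h1 h2 h4 y hy h1' h2' h4' ?_ e
        by_contra hne
        obtain ⟨l1, l2⟩ := hc x hx h1 h2 h4
        obtain ⟨l1', l2'⟩ := hc y hy h1' h2' h4'
        exact (hH x hx h1 h2 h4).2.2.1 (two _ l1 l2 _ l1' l2' hne _
          (le_sup_right.trans (hH x hx h1 h2 h4).2.1)
          (e ▸ le_sup_right.trans (hH y hy h1' h2' h4').2.1))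
  · intro x hx hxB
    obtain ⟨h1, h2⟩ := hnB x hx hxB
    by_cases h4 : Rp x
    · simp only [h4, if_true]
      obtain ⟨k1, k2, -⟩ := hR1 x hx h1 h2 h4
      exact hline x hx h1 _ (hrow x hx h1 _ k1 k2) le_sup_left (hoE x hx h1 h2 h4 _ k2)
    · simp only [h4, if_false]
      obtain ⟨l1, l2⟩ := hc x hx h1 h2 h4
      exact hline x hx h1 _ (hrow x hx h1 _ l1 l2) le_sup_left (hoRow x hx h1 h2 h4)
  · intro x hx hxB
    obtain ⟨h1, h2⟩ := hnB x hx hxB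
    by_cases h4 : Rp x
    · simp only [h4, if_true]
      obtain ⟨-, -, k1, k2, -⟩ := hR1 x hx h1 h2 h4
      exact hline x hx h1 _ (hrow x hx h1 _ k1 k2) le_sup_left (hoE x hx h1 h2 h4 _ k2)
    · simp only [h4, if_false]
      exact hlineG x hx h1 h2 h4
  · intro x hx hxB
    obtain ⟨h1, h2⟩ := hnB x hx hxB
    by_cases h4 : Rp x
    · simp only [h4, if_true]
      have k := hrep x hx h1 h2 h4
      refine hplane x hx h1 _ k.1 (le_sup_left.trans le_sup_left) ?_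
      rw [k.2]
      exact hRo x hx h1 h2 h4
    · simp only [h4, if_false]
      have k := hgl x hx h1 h2 h4
      rw [k.2.2.2.2]
      exact hplaneG x hx h1 h2 h4


end Pool.Agent.Helper83.RC
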